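import Pool.Agent.N375.AV.D
import Pool.Agent.V60.LD.HallCount

/-!
# Hall's conjecture for abscissas near functions of the values of additive functions and of their compositions

Let `F = f_1 ∘ ⋯ ∘ f_k`, where the functions `f_i` are dominated by the largest prime factor; for example the sum of the
prime factors (with multiplicity), the largest prime factor, Kempner's function, and more generally all additive functions
`f` with `f (q^j) ≤ C q^j` at the prime powers, with different values at different large primes. Let `α > 0`,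
`1 ≤ e < 6 / 5` and `0 ≤ κ < 1 - 5 e / 6`. For all `m ≤ N` but `K N exp (- c (log N)^(1/(k+1)))` EVERY integral point
`(x, y)` of every curve `y ^ 2 = x ^ 3 + D`, `D ≠ 0`, with `||x| - α F(m)^e| ≤ F(m)^κ` satisfies `|x| < 32 |D|`, which is
much more than Hall's bound `|x| ≤ C |D| ^ (2 + ε)`. More generally `G (F m)` takes the place of `α F(m)^e`, where `G` is
any function with steps bounded below by a positive constant and growth at most `v^e`. The values of `F` are in general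
much smaller than `m` and taken with very large multiplicities, and so this does not follow from the number
`O (X ^ (5 / 6 + ε))` of the abscissas `|x| ≤ X` with `|x| ≥ 32 |D|` alone.

The tool is `Pool.Agent.N375.AV` (helper375); the count of the abscissas is from the starting library
(`Pool.Agent.V60.LD.HallCount`).
-/

set_option autoImplicit false

namespace Pool.Agent.Results.MP_9d7cd1_nt.AdditiveValues

open Finset
open Pool.Agent.N733.TG (Expanding expanding_pow)
open Pool.Agent.N375.AV (PD comp windows pd_additive pd_sopfr pd_largest pd_kempner)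

lemma mem_E {d x y : ℤ} (hd : d ≠ 0) (h : y ^ 2 = x ^ 3 + d) (hx : ¬ |x| < 32 * |d|) :
    x.natAbs ∈ Pool.Agent.V60.Hall.E := by
  have hd1 : 1 ≤ |d| := Int.one_le_abs hd
  have hx0 : 0 < x := by
    by_contra hcon
    push Not at hcon
    -- `x ≤ 0`: then `|d| ≥ |x| ^ 3`
    obtain ⟨z, hz⟩ : ∃ z : ℤ, z = -x := ⟨_, rfl⟩
    have hz0 : 0 ≤ z := by omega
    have e : x = -z := by omega
    have e2 : d = y ^ 2 + z ^ 3 := by
      rw [e] at h
      have : (-z) ^ 3 = -(z ^ 3) := by ring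
      rw [this] at h
      linarith
    have h3 : 0 ≤ z ^ 3 := by positivity
    have h4 : z ≤ z ^ 3 := by
      rcases hz0.eq_or_lt with h0 | h0
      · rw [← h0]; norm_num
      · have h1 : 1 ≤ z := h0
        exact le_self_pow₀ h1 (by norm_num)
    have h5 : 0 ≤ y ^ 2 := sq_nonneg y
    have h6 : |d| = d := abs_of_nonneg (by linarith)
    have h7 : |x| = z := by rw [e, abs_neg, abs_of_nonneg hz0]
    apply hx
    rw [h6, h7]
    linarith
  refine ⟨y.natAbs, ?_, ?_⟩
  · rw [Int.natCast_natAbs, Int.natCast_natAbs, sq_abs, abs_of_pos hx0]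
    intro h1
    apply hd
    linarith
  · rw [Int.natCast_natAbs, Int.natCast_natAbs, sq_abs, abs_of_pos hx0]
    have h1 : y ^ 2 - x ^ 3 = d := by linarith
    rw [h1]
    rw [abs_of_pos hx0] at hx
    push Not at hx
    exact hx

/-- **Hall's conjecture near the values of additive functions and of their compositions.** Let `f_1, …, f_k` be dominated by
the largest prime factor (`PD`), `F = f_1 ∘ ⋯ ∘ f_k`. Let `G` have steps `≥ a > 0` and growth at most `v^e`, let `κ ≥ 0` and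
`5 e / 6 + κ < 1`. There are `c > 0` and `K` such that for all `N ≥ 1`, for all `m ≤ N` but
`K N exp (- c (log N)^(1/(k+1)))`, EVERY integral point `(x, y)` of every curve `y ^ 2 = x ^ 3 + D`, `D ≠ 0`, with
`||x| - G (F m)| ≤ F(m)^κ` satisfies `|x| < 32 |D|`. The additive functions with `f (q^j) ≤ C q^j`, injective at the large
primes, in particular the sum of the prime factors, and the largest prime factor and Kempner's function satisfy `PD`, and
`α v^e` with `α > 0`, `e ≥ 1` is an example of `G`. -/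
theorem result :
    (∀ fs : List (ℕ → ℕ), (∀ f ∈ fs, PD f) → ∀ (G : ℕ → ℝ) (e : ℝ), Expanding G e → ∀ κ : ℝ, 0 ≤ κ →
      e * (5 / 6) + κ < 1 → ∃ c K : ℝ, 0 < c ∧ ∀ N : ℕ, 1 ≤ N →
      ({m : ℕ | 1 ≤ m ∧ m ≤ N ∧ ¬ ∀ D x y : ℤ, D ≠ 0 → y ^ 2 = x ^ 3 + D →
        |(|x| : ℝ) - G (comp fs m)| ≤ (comp fs m : ℝ) ^ κ → |x| < 32 * |D|}.ncard : ℝ) ≤
        K * N * Real.exp (-(c * Real.log N ^ ((1 : ℝ) / (fs.length + 1))))) ∧
    ((∀ f : ℕ → ℕ, (∀ a b : ℕ, Nat.Coprime a b → f (a * b) = f a + f b) →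
      (∃ C : ℕ, ∀ q j : ℕ, q.Prime → 1 ≤ j → f (q ^ j) ≤ C * q ^ j) →
      (∃ P : ℕ, ∀ p q : ℕ, p.Prime → q.Prime → P ≤ p → P ≤ q → f p = f q → p = q) → PD f) ∧
      PD (fun n => n.primeFactorsList.sum) ∧ PD (fun n => n.primeFactors.sup id) ∧
      PD (fun n => sInf {k : ℕ | n ∣ k.factorial})) ∧
    ∀ α e : ℝ, 0 < α → 1 ≤ e → Expanding (fun v => α * (v : ℝ) ^ e) e := by
  refine ⟨fun fs hfs G e hG κ hκ h1 => ?_, ⟨fun f h1 h2 h3 => pd_additive h1 h2 h3, pd_sopfr, pd_largest,
    pd_kempner⟩, fun α d hα hd => expanding_pow hα hd⟩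
  obtain ⟨c, K, hc, hK⟩ := windows Pool.Agent.V60.Hall.E (fun t : ℕ => (t : ℝ)) fs hfs hG (s := 5 / 6) (κ := κ)
    (by norm_num) hκ h1 (fun ε hε => Pool.Agent.V60.Hall.count ε hε)
  refine ⟨c, K, hc, fun N hN => le_trans ?_ (hK N hN)⟩
  have hfin : {m : ℕ | 1 ≤ m ∧ m ≤ N ∧ ∃ t ∈ Pool.Agent.V60.Hall.E,
      |(t : ℝ) - G (comp fs m)| ≤ (comp fs m : ℝ) ^ κ}.Finite :=
    (Set.finite_Icc 1 N).subset fun m hm => ⟨hm.1, hm.2.1⟩
  have hsub : {m : ℕ | 1 ≤ m ∧ m ≤ N ∧ ¬ ∀ D x y : ℤ, D ≠ 0 → y ^ 2 = x ^ 3 + D →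
      |(|x| : ℝ) - G (comp fs m)| ≤ (comp fs m : ℝ) ^ κ → |x| < 32 * |D|} ⊆
      {m : ℕ | 1 ≤ m ∧ m ≤ N ∧ ∃ t ∈ Pool.Agent.V60.Hall.E,
        |(t : ℝ) - G (comp fs m)| ≤ (comp fs m : ℝ) ^ κ} := by
    rintro m ⟨h2, h3, h4⟩
    push Not at h4
    obtain ⟨D, x, y, hD, hxy, hw, hx⟩ := h4
    refine ⟨h2, h3, x.natAbs, mem_E hD hxy (not_lt.2 hx), ?_⟩
    have e : ((x.natAbs : ℕ) : ℝ) = |(x : ℝ)| := by
      rw [Nat.cast_natAbs]
      push_cast
      rfl
    rw [e]
    exact hw
  exact_mod_cast Set.ncard_le_ncard hsub hfin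

end Pool.Agent.Results.MP_9d7cd1_nt.AdditiveValues
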