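import Pool.Agent.N405.DA.Keep
import Pool.Agent.V60.LD.HallCount

/-!
# Hall's conjecture for abscissas near functions of the denominators of the convergents of real numbers

Let `α > 0`, `1 ≤ e < 6 / 5`, `κ < 1 - 5 e / 6` and `σ = 5 e / 6 + κ`. For all real numbers `ξ` outside a set of Hausdorff
dimension at most `(1 + σ) / 2 < 1`, and so for almost all `ξ`, and for all but finitely many denominators `q` of convergents
of `ξ`, EVERY integral point `(x, y)` of every curve `y ^ 2 = x ^ 3 + D`, `D ≠ 0`, with `||x| - α q^e| ≤ q^κ` satisfies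
`|x| < 32 |D|`, which is much more than Hall's bound `|x| ≤ C |D| ^ (2 + ε)`. The same holds for all but finitely many `q`
with `‖ξ q^k - γ‖ ≤ q^(-s)`, `s > σ`, outside a set of dimension at most `(k + σ) / (k + s)` of real numbers `ξ`,
simultaneously for all `γ` of a countable set.

The tool is `Pool.Agent.N405.DA` (helper405); the count of the abscissas is from the starting library
(`Pool.Agent.V60.LD.HallCount`), the lemma `mem_E` is from `MP_9d7cd1_nt.MultiplicativeValues` (helper918).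
-/

set_option autoImplicit false

namespace Pool.Agent.Results.MP_9d7cd1_nt.ConvergentAbscissas

open Finset
open Pool.Agent.N405.DA (Keeps Expanding keep_windows expanding_pow)

lemma mem_E {d x y : ℤ} (hd : d ≠ 0) (h : y ^ 2 = x ^ 3 + d) (hx : ¬ |x| < 32 * |d|) :
    x.natAbs ∈ Pool.Agent.V60.Hall.E := by
  have hd1 : 1 ≤ |d| := Int.one_le_abs hd
  have hx0 : 0 < x := by
    by_contra hcon
    push Not at hcon
    -- `x ≤ 0`: then `|d| ≥ |x| ^ 3`
    obtain ⟨z, hz⟩ : ∃ z : ℤ, z = -x := ⟨_, rfl⟩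
    have hz0 : 0 ≤ z := by omega
    have e : x = -z := by omega
    have e2 : d = y ^ 2 + z ^ 3 := by
      rw [e] at h
      have : (-z) ^ 3 = -(z ^ 3) := by ring
      rw [this] at h
      linarith
    have h3 : 0 ≤ z ^ 3 := by positivity
    have h4 : z ≤ z ^ 3 := by
      rcases hz0.eq_or_lt with h0 | h0
      · rw [← h0]; norm_num
      · have h1 : 1 ≤ z := h0
        exact le_self_pow₀ h1 (by norm_num)
    have h5 : 0 ≤ y ^ 2 := sq_nonneg y
    have h6 : |d| = d := abs_of_nonneg (by linarith)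
    have h7 : |x| = z := by rw [e, abs_neg, abs_of_nonneg hz0]
    apply hx
    rw [h6, h7]
    linarith
  refine ⟨y.natAbs, ?_, ?_⟩
  · rw [Int.natCast_natAbs, Int.natCast_natAbs, sq_abs, abs_of_pos hx0]
    intro h1
    apply hd
    linarith
  · rw [Int.natCast_natAbs, Int.natCast_natAbs, sq_abs, abs_of_pos hx0]
    have h1 : y ^ 2 - x ^ 3 = d := by linarith
    rw [h1]
    rw [abs_of_pos hx0] at hx
    push Not at hx
    exact hx

/-- **Hall's conjecture near the denominators of convergents.** Let `G` have steps `≥ a > 0` and growth at most `v^e`, let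
`κ ≥ 0` and `σ = 5 e / 6 + κ < 1`. The property that EVERY integral point `(x, y)` of every curve `y ^ 2 = x ^ 3 + D`,
`D ≠ 0`, with `||x| - G q| ≤ q^κ` satisfies `|x| < 32 |D|` is kept by the denominators `q` of good approximations
(`Keeps σ`). `α v^e` with `α > 0`, `e ≥ 1` is an example of `G`. -/
theorem result :
    (∀ (G : ℕ → ℝ) (e : ℝ), Expanding G e → ∀ κ : ℝ, 0 ≤ κ → e * (5 / 6) + κ < 1 →
      Keeps (e * (5 / 6) + κ) (fun q => ∀ D x y : ℤ, D ≠ 0 → y ^ 2 = x ^ 3 + D → |(|x| : ℝ) - G q| ≤ (q : ℝ) ^ κ →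
        |x| < 32 * |D|)) ∧
    ∀ α e : ℝ, 0 < α → 1 ≤ e → Expanding (fun v => α * (v : ℝ) ^ e) e := by
  refine ⟨fun G e hG κ hκ h1 => ?_, fun α d hα hd => expanding_pow hα hd⟩
  have h2 := keep_windows Pool.Agent.V60.Hall.E (fun t : ℕ => (t : ℝ)) hG (s := 5 / 6) (κ := κ)
    (by norm_num) hκ h1 (fun ε hε => Pool.Agent.V60.Hall.count ε hε)
  refine Pool.Agent.N405.DA.Keeps.mono h2 fun q hq => ?_
  intro D x y hD hxy hw
  by_contra hx
  apply hq
  refine ⟨x.natAbs, mem_E hD hxy hx, ?_⟩
  have e : ((x.natAbs : ℕ) : ℝ) = |(x : ℝ)| := by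
    rw [Nat.cast_natAbs]
    push_cast
    rfl
  rw [e]
  exact hw

end Pool.Agent.Results.MP_9d7cd1_nt.ConvergentAbscissas
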