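import Pool.Agent.N733.TG.K
import Pool.Agent.V60.LD.HallCount

/-!
# Hall's conjecture for abscissas near functions of the values of multiplicative functions

Let `f` be a positive multiplicative function of at most polynomial growth such that `f p ≤ M p` for the large primes `p`,
with different values at different large primes; for example Euler's function or the sum of the divisors. Let `α > 0`,
`1 ≤ e < 6 / 5` and `κ < 1 - 5 e / 6`. For all `m ≤ N` but `N / (log N)^U` EVERY integral point `(x, y)` of every curve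
`y ^ 2 = x ^ 3 + D`, `D ≠ 0`, with `||x| - α f(m)^e| ≤ f(m)^κ` satisfies `|x| < 32 |D|`, which is much more than Hall's bound
`|x| ≤ C |D| ^ (2 + ε)`. More generally `G (f m)` takes the place of `α f(m)^e`, where `G` is any function with steps
bounded below by a positive constant and growth at most `v^e`. The values of `f` are in general taken with very large
multiplicities, and so this does not follow from the number `O (X ^ (5 / 6 + ε))` of the abscissas `|x| ≤ X` with
`|x| ≥ 32 |D|` alone.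

The tool is `Pool.Agent.N733.TG` (helper733); the count of the abscissas is from the starting library
(`Pool.Agent.V60.LD.HallCount`).
-/

set_option autoImplicit false

namespace Pool.Agent.Results.MP_9d7cd1_nt.MultiplicativeValues

open Finset
open Pool.Agent.N733.TG (LM Expanding lm_totient lm_sigma keep_windows expanding_pow)

lemma mem_E {d x y : ℤ} (hd : d ≠ 0) (h : y ^ 2 = x ^ 3 + d) (hx : ¬ |x| < 32 * |d|) :
    x.natAbs ∈ Pool.Agent.V60.Hall.E := by
  have hd1 : 1 ≤ |d| := Int.one_le_abs hd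
  have hx0 : 0 < x := by
    by_contra hcon
    push Not at hcon
    -- `x ≤ 0`: then `|d| ≥ |x| ^ 3`
    obtain ⟨z, hz⟩ : ∃ z : ℤ, z = -x := ⟨_, rfl⟩
    have hz0 : 0 ≤ z := by omega
    have e : x = -z := by omega
    have e2 : d = y ^ 2 + z ^ 3 := by
      rw [e] at h
      have : (-z) ^ 3 = -(z ^ 3) := by ring
      rw [this] at h
      linarith
    have h3 : 0 ≤ z ^ 3 := by positivity
    have h4 : z ≤ z ^ 3 := by
      rcases hz0.eq_or_lt with h0 | h0
      · rw [← h0]; norm_num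
      · have h1 : 1 ≤ z := h0
        exact le_self_pow₀ h1 (by norm_num)
    have h5 : 0 ≤ y ^ 2 := sq_nonneg y
    have h6 : |d| = d := abs_of_nonneg (by linarith)
    have h7 : |x| = z := by rw [e, abs_neg, abs_of_nonneg hz0]
    apply hx
    rw [h6, h7]
    linarith
  refine ⟨y.natAbs, ?_, ?_⟩
  · rw [Int.natCast_natAbs, Int.natCast_natAbs, sq_abs, abs_of_pos hx0]
    intro h1
    apply hd
    linarith
  · rw [Int.natCast_natAbs, Int.natCast_natAbs, sq_abs, abs_of_pos hx0]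
    have h1 : y ^ 2 - x ^ 3 = d := by linarith
    rw [h1]
    rw [abs_of_pos hx0] at hx
    push Not at hx
    exact hx

/-- **Hall's conjecture near the values of multiplicative functions.** Let `f` be multiplicative and positive, of at most
polynomial growth, with `f p ≤ M p` at the large primes, and injective there. Let `G` have steps `≥ a > 0` and growth at most
`v^e`. Let `κ ≥ 0` and `5 e / 6 + κ < 1`. For every `U` and all large `N`, for all `m ≤ N` but `N / (log N)^U`, EVERY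
integral point `(x, y)` of every curve `y ^ 2 = x ^ 3 + D`, `D ≠ 0`, with `||x| - G (f m)| ≤ f(m)^κ` satisfies
`|x| < 32 |D|`. Euler's function and the sum of the divisors are examples of such functions `f`, and `α v^e` with `α > 0`,
`e ≥ 1` is an example of `G`. -/
theorem result :
    (∀ f : ℕ → ℕ, LM f → ∀ (G : ℕ → ℝ) (e : ℝ), Expanding G e → ∀ κ : ℝ, 0 ≤ κ → e * (5 / 6) + κ < 1 →
      ∀ U : ℕ, ∃ N₀ : ℕ, ∀ N : ℕ, N₀ ≤ N →
      ({m : ℕ | 1 ≤ m ∧ m ≤ N ∧ ¬ ∀ D x y : ℤ, D ≠ 0 → y ^ 2 = x ^ 3 + D → |(|x| : ℝ) - G (f m)| ≤ (f m : ℝ) ^ κ →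
        |x| < 32 * |D|}.ncard : ℝ) ≤ N / Real.log N ^ U) ∧
    (LM Nat.totient ∧ LM (fun m => ∑ d ∈ m.divisors, d)) ∧
    ∀ α e : ℝ, 0 < α → 1 ≤ e → Expanding (fun v => α * (v : ℝ) ^ e) e := by
  refine ⟨fun f hf G e hG κ hκ h1 U => ?_, ⟨lm_totient, lm_sigma⟩, fun α d hα hd => expanding_pow hα hd⟩
  obtain ⟨N₀, hN₀⟩ := keep_windows Pool.Agent.V60.Hall.E (fun t : ℕ => (t : ℝ)) hf hG (s := 5 / 6) (κ := κ)
    (by norm_num) hκ h1 (fun ε hε => Pool.Agent.V60.Hall.count ε hε) U
  refine ⟨N₀, fun N hN => le_trans ?_ (hN₀ N hN)⟩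
  have hfin : {m : ℕ | 1 ≤ m ∧ m ≤ N ∧ ∃ t ∈ Pool.Agent.V60.Hall.E, |(t : ℝ) - G (f m)| ≤ (f m : ℝ) ^ κ}.Finite :=
    (Set.finite_Icc 1 N).subset fun m hm => ⟨hm.1, hm.2.1⟩
  have hsub : {m : ℕ | 1 ≤ m ∧ m ≤ N ∧ ¬ ∀ D x y : ℤ, D ≠ 0 → y ^ 2 = x ^ 3 + D →
      |(|x| : ℝ) - G (f m)| ≤ (f m : ℝ) ^ κ → |x| < 32 * |D|} ⊆
      {m : ℕ | 1 ≤ m ∧ m ≤ N ∧ ∃ t ∈ Pool.Agent.V60.Hall.E, |(t : ℝ) - G (f m)| ≤ (f m : ℝ) ^ κ} := by
    rintro m ⟨h2, h3, h4⟩
    push Not at h4
    obtain ⟨D, x, y, hD, hxy, hw, hx⟩ := h4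
    refine ⟨h2, h3, x.natAbs, mem_E hD hxy (not_lt.2 hx), ?_⟩
    have e : ((x.natAbs : ℕ) : ℝ) = |(x : ℝ)| := by
      rw [Nat.cast_natAbs]
      push_cast
      rfl
    rw [e]
    exact hw
  exact_mod_cast Set.ncard_le_ncard hsub hfin

end Pool.Agent.Results.MP_9d7cd1_nt.MultiplicativeValues
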