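import Pool.Agent.N671.DA.Win
import Pool.Agent.V60.LD.HallCount

/-!
# Hall's conjecture for abscissas near functions of the denominators of good approximations

Let `α_1, …, α_m` be real numbers. We consider the natural numbers `q` with `‖q α_j - β_j‖ ≤ c q^(-τ)` for all `j`, `‖x‖` the
distance to the nearest integer; for `β = 0`, `c = 1`, `τ = 1 / m` these include the denominators of all best simultaneous
approximations (the denominators of the convergents for `m = 1`), a very sparse sequence. We show: let `G` be a function with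
steps bounded below by a positive constant and growth at most `v^e`, for example `a v^e`. For all `α` in `ℝ^m` outside a set of
Hausdorff dimension at most `(m + 5 e / 6 + κ) / (1 + τ)`, and all `c`, for all but finitely many such `q` EVERY integral point
`(x, y)` of every curve `y ^ 2 = x ^ 3 + D`, `D ≠ 0`, with `||x| - G q| ≤ q^κ` satisfies `|x| < 32 |D|`, which is much more than
Hall's bound `|x| ≤ C |D| ^ (2 + ε)`. For `τ = 1 / m` the bound of the dimension is less than `m` if `5 e / 6 + κ < 1`; and so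
the statement holds for almost all `α`.

Proof. The `q` such that some exceptional abscissa is near `G q` form a set with `O(X^(5 e / 6 + κ + ε))` elements up to `X`, by
the count of the starting library (`Pool.Agent.V60.LD.HallCount`); and the `α` with `‖q α_j - β_j‖ ≤ c q^(-τ)` for all `j` and
infinitely many `q` of such a set are covered by few small cubes (`Pool.Agent.N671.DA`, helper671).
-/

set_option autoImplicit false

namespace Pool.Agent.Results.MP_9d7cd1_nt.SimultaneousApproximations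

open Finset
open Pool.Agent.N671.DA (Solves Expanding expanding_pow approx_windows)

lemma mem_E {d x y : ℤ} (hd : d ≠ 0) (h : y ^ 2 = x ^ 3 + d) (hx : ¬ |x| < 32 * |d|) :
    x.natAbs ∈ Pool.Agent.V60.Hall.E := by
  have hd1 : 1 ≤ |d| := Int.one_le_abs hd
  have hx0 : 0 < x := by
    by_contra hcon
    push Not at hcon
    -- `x ≤ 0`: then `|d| ≥ |x| ^ 3`
    obtain ⟨z, hz⟩ : ∃ z : ℤ, z = -x := ⟨_, rfl⟩
    have hz0 : 0 ≤ z := by omega
    have e : x = -z := by omega
    have e2 : d = y ^ 2 + z ^ 3 := by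
      rw [e] at h
      have : (-z) ^ 3 = -(z ^ 3) := by ring
      rw [this] at h
      linarith
    have h3 : 0 ≤ z ^ 3 := by positivity
    have h4 : z ≤ z ^ 3 := by
      rcases hz0.eq_or_lt with h0 | h0
      · rw [← h0]; norm_num
      · have h1 : 1 ≤ z := h0
        exact le_self_pow₀ h1 (by norm_num)
    have h5 : 0 ≤ y ^ 2 := sq_nonneg y
    have h6 : |d| = d := abs_of_nonneg (by linarith)
    have h7 : |x| = z := by rw [e, abs_neg, abs_of_nonneg hz0]
    apply hx
    rw [h6, h7]
    linarith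
  refine ⟨y.natAbs, ?_, ?_⟩
  · rw [Int.natCast_natAbs, Int.natCast_natAbs, sq_abs, abs_of_pos hx0]
    intro h1
    apply hd
    linarith
  · rw [Int.natCast_natAbs, Int.natCast_natAbs, sq_abs, abs_of_pos hx0]
    have h1 : y ^ 2 - x ^ 3 = d := by linarith
    rw [h1]
    rw [abs_of_pos hx0] at hx
    push Not at hx
    exact hx

/-- **Hall's conjecture near functions of the denominators of good approximations.** Let `G` have steps `≥ a > 0` and growth at
most `v^e`. Let `0 ≤ κ ≤ 1`, `β` in `ℝ^m` and `τ > 0`. For all `α` in `ℝ^m` outside a set of Hausdorff dimension at most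
`(m + 5 e / 6 + κ) / (1 + τ)` and all `c`, for all large `q` with `‖q α_j - β_j‖ ≤ c q^(-τ)` for all `j`, EVERY integral point
`(x, y)` of every curve `y ^ 2 = x ^ 3 + D`, `D ≠ 0`, with `||x| - G q| ≤ q^κ` satisfies `|x| < 32 |D|`. The functions `a v^e`
with `a > 0`, `e ≥ 1` are examples of `G`. -/
theorem result :
    (∀ (G : ℕ → ℝ) (e : ℝ), Expanding G e → ∀ κ : ℝ, 0 ≤ κ → κ ≤ 1 →
      ∀ (m : ℕ) (β : Fin m → ℝ) (τ : ℝ), 0 < τ →
      ∃ E : Set (Fin m → ℝ), dimH E ≤ ENNReal.ofReal ((m + (e * (5 / 6) + κ)) / (1 + τ)) ∧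
        ∀ α, α ∉ E → ∀ c : ℝ, ∃ Q : ℕ, ∀ q : ℕ, Q ≤ q → Solves α β q (c * (q : ℝ) ^ (-τ)) →
          ∀ D x y : ℤ, D ≠ 0 → y ^ 2 = x ^ 3 + D → |(|x| : ℝ) - G q| ≤ (q : ℝ) ^ κ → |x| < 32 * |D|) ∧
    ∀ a e : ℝ, 0 < a → 1 ≤ e → Expanding (fun v => a * (v : ℝ) ^ e) e := by
  refine ⟨fun G e hG κ hκ hκ1 m β τ hτ => ?_, fun a e ha he => expanding_pow ha he⟩
  obtain ⟨E, hE, hE2⟩ := approx_windows Pool.Agent.V60.Hall.E (fun t : ℕ => (t : ℝ)) hG (s := 5 / 6) (κ := κ)
    (by norm_num) hκ hκ1 (fun ε hε => Pool.Agent.V60.Hall.count ε hε) β hτ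
  refine ⟨E, hE, fun α hα c => ?_⟩
  obtain ⟨Q, hQ⟩ := hE2 α hα c
  refine ⟨Q, fun q hq h1 D x y hD hxy hw => ?_⟩
  by_contra hx
  refine hQ q hq h1 x.natAbs (mem_E hD hxy hx) ?_
  have e : ((x.natAbs : ℕ) : ℝ) = |(x : ℝ)| := by
    rw [Nat.cast_natAbs]
    push_cast
    rfl
  rw [e]
  exact hw

end Pool.Agent.Results.MP_9d7cd1_nt.SimultaneousApproximations
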